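import Pool.Agent.Helper29.UG.Props

/-!
# MP_b55b7c_an, packet UG-Entry: the entrywise action on matrices
-/

open scoped ENNReal NNReal InnerProductSpace ComplexOrder
open Filter Topology

attribute [-instance] CStarMatrix.instAlgebra CStarMatrix.instModule CStarMatrix.instSMul
  CStarMatrix.instMulAction CStarMatrix.instDistribMulAction

noncomputable section
namespace RC
universe u

set_option linter.unusedSectionVars false

namespace H90Entry
section
variable {A : Type u} [CStarAlgebra A] [PartialOrder A] [StarOrderedRing A]
  {ν : Type} [Fintype ν] [DecidableEq ν]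

/-- the entrywise map -/
def ef (f : A → A) (T : CStarMatrix ν ν A) : CStarMatrix ν ν A :=
  CStarMatrix.ofMatrix (Matrix.of fun i l => f (T i l))

theorem ef_apply (f : A → A) (T : CStarMatrix ν ν A) (i l : ν) : ef f T i l = f (T i l) := rfl

theorem cm_ext {T S : CStarMatrix ν ν A} (h : ∀ i j, T i j = S i j) : T = S := by
  ext i j
  exact h i j

/-- the entrywise automorphism -/
def ee (e : A ≃⋆ₐ[ℂ] A) : CStarMatrix ν ν A ≃⋆ₐ[ℂ] CStarMatrix ν ν A where
  toFun := ef e
  invFun := ef e.symm
  left_inv := fun T => by
    apply cm_ext
    intro a b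
    rw [ef_apply, ef_apply]
    exact e.symm_apply_apply _
  right_inv := fun T => by
    apply cm_ext
    intro a b
    rw [ef_apply, ef_apply]
    exact e.apply_symm_apply _
  map_mul' := fun T S => by
    apply cm_ext
    intro a b
    rw [CStarMatrix.mul_apply, ef_apply, CStarMatrix.mul_apply, map_sum]
    apply Finset.sum_congr rfl
    intro l _
    rw [map_mul]
    rfl
  map_add' := fun T S => by
    apply cm_ext
    intro a b
    show e ((T + S) a b) = ef e T a b + ef e S a b
    rw [ef_apply, ef_apply, ← map_add]
    rfl
  map_star' := fun T => by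
    apply cm_ext
    intro a b
    show e (star (T b a)) = star (e (T b a))
    rw [map_star]
  map_smul' := fun c T => by
    apply cm_ext
    intro a b
    show e (c • T a b) = c • e (T a b)
    rw [map_smul]

theorem ee_apply (e : A ≃⋆ₐ[ℂ] A) (T : CStarMatrix ν ν A) (i l : ν) :
    ee e T i l = e (T i l) := rfl

end
end H90Entry

open H90Entry in
theorem entryP : EntryP.{u} := by
  intro A _ _ _ G α ν _ _
  refine ⟨fun g => ee (α g), ?_, ?_⟩
  · intro g a
    apply cm_ext
    intro i l
    show (α g) (if i = l then a else 0) = if i = l then α g a else 0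
    by_cases h : i = l
    · rw [if_pos h, if_pos h]
    · rw [if_neg h, if_neg h, map_zero]
  · intro φ hφ g T
    apply Finset.sum_congr rfl
    intro i _
    show φ (α g (T i i)) = φ (T i i)
    exact hφ g _

end RC
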